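import Mathlib

/-!
# S01585, leaf B: the colour blow-up
-/

set_option autoImplicit false

open Finset

namespace Pool.Agent.Helper54.TF

section field

variable {F : Type} [Field F]

/-- The functional `a ↦ a₁ + (x + y) a₂ + x y a₃`. -/
def LL (x y : F) (a : F × F × F) : F := a.1 + (x + y) * a.2.1 + x * y * a.2.2

theorem LL_solve {x y z : F} (hxy : x ≠ y) (hxz : x ≠ z) (hyz : y ≠ z) (t1 t2 t3 : F) :
    ∃ a : F × F × F, LL x y a = t1 ∧ LL x z a = t2 ∧ LL y z a = t3 := by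
  have h1 : x - y ≠ 0 := sub_ne_zero.2 hxy
  have h2 : x - z ≠ 0 := sub_ne_zero.2 hxz
  have h3 : y - z ≠ 0 := sub_ne_zero.2 hyz
  obtain ⟨u, hu⟩ : ∃ u, (y - z) * u = t1 - t2 := ⟨(t1 - t2) / (y - z), mul_div_cancel₀ _ h3⟩
  obtain ⟨v, hv⟩ : ∃ v, (x - z) * v = t1 - t3 := ⟨(t1 - t3) / (x - z), mul_div_cancel₀ _ h2⟩
  obtain ⟨c, hc⟩ : ∃ c, (x - y) * c = u - v := ⟨(u - v) / (x - y), mul_div_cancel₀ _ h1⟩
  refine ⟨(t1 - (x + y) * (u - x * c) - x * y * c, u - x * c, c), ?_, ?_, ?_⟩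
  · simp only [LL]
    ring
  · simp only [LL]
    linear_combination -hu
  · simp only [LL]
    linear_combination (x - z) * hc - hv

theorem LL_unique {x y z : F} (hxy : x ≠ y) (hxz : x ≠ z) (hyz : y ≠ z) {a b : F × F × F}
    (e1 : LL x y a = LL x y b) (e2 : LL x z a = LL x z b) (e3 : LL y z a = LL y z b) : a = b := by
  have h1 : x - y ≠ 0 := sub_ne_zero.2 hxy
  have h2 : x - z ≠ 0 := sub_ne_zero.2 hxz
  have h3 : y - z ≠ 0 := sub_ne_zero.2 hyz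
  obtain ⟨a1, a2, a3⟩ := a
  obtain ⟨b1, b2, b3⟩ := b
  simp only [LL] at e1 e2 e3
  have k1 : (y - z) * ((a2 - b2) + x * (a3 - b3)) = 0 := by linear_combination e1 - e2
  have k2 : (x - z) * ((a2 - b2) + y * (a3 - b3)) = 0 := by linear_combination e1 - e3
  have k3 := (mul_eq_zero.1 k1).resolve_left h3
  have k4 := (mul_eq_zero.1 k2).resolve_left h2
  have k5 : (x - y) * (a3 - b3) = 0 := by linear_combination k3 - k4
  have k6 := (mul_eq_zero.1 k5).resolve_left h1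
  have k7 : a3 = b3 := sub_eq_zero.1 k6
  subst k7
  have k8 : a2 = b2 := by linear_combination k3
  subst k8
  have k9 : a1 = b1 := by linear_combination e1
  subst k9
  rfl

/-- The colour of a triple of points. -/
def colr (h h' h'' : F) (a b c : F × F × F) : F := LL h' h'' a + LL h h'' b + LL h h' c

end field

section points

variable {G : Type} [Fintype G]

/-- The point with height `h` and vector `a`. -/
noncomputable def pnt (h : ℕ) (a : G) : ℕ := h * Fintype.card G + (Fintype.equivFin G a : ℕ)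

theorem pnt_lt {h h' : ℕ} (hh : h < h') (a b : G) : pnt h a < pnt h' b := by
  have h1 : (Fintype.equivFin G a : ℕ) < Fintype.card G := (Fintype.equivFin G a).2
  have h2 : (h + 1) * Fintype.card G ≤ h' * Fintype.card G := Nat.mul_le_mul_right _ hh
  unfold pnt
  nlinarith

theorem pnt_inj {h h' : ℕ} {a b : G} (e : pnt h a = pnt h' b) : h = h' ∧ a = b := by
  rcases lt_trichotomy h h' with h1 | h1 | h1
  · exact absurd e (pnt_lt h1 a b).ne
  · subst h1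
    refine ⟨rfl, ?_⟩
    unfold pnt at e
    have h2 : (Fintype.equivFin G a : ℕ) = (Fintype.equivFin G b : ℕ) := by omega
    exact (Fintype.equivFin G).injective (Fin.ext h2)
  · exact absurd e (pnt_lt h1 b a).ne'

end points

theorem exists_colour {X : Type} [DecidableEq X] (SI : Finset X) (p : ℕ) (hp : SI.card < p) :
    ∃ χ : X → ZMod p, ∀ x ∈ SI, ∀ y ∈ SI, χ x = χ y → x = y := by
  classical
  refine ⟨fun x => if h : x ∈ SI then ((SI.equivFin ⟨x, h⟩ : ℕ) : ZMod p) else 0, ?_⟩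
  intro x hx y hy e
  simp only [hx, hy, dif_pos] at e
  have h1 : ((SI.equivFin ⟨x, hx⟩ : ℕ)) < p := lt_trans (SI.equivFin ⟨x, hx⟩).2 hp
  have h2 : ((SI.equivFin ⟨y, hy⟩ : ℕ)) < p := lt_trans (SI.equivFin ⟨y, hy⟩).2 hp
  have h3 : (SI.equivFin ⟨x, hx⟩ : ℕ) = (SI.equivFin ⟨y, hy⟩ : ℕ) := by
    have h4 := (ZMod.natCast_eq_natCast_iff' _ _ _).1 e
    rwa [Nat.mod_eq_of_lt h1, Nat.mod_eq_of_lt h2] at h4
  have h5 := SI.equivFin.injective (Fin.ext h3)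
  exact congrArg Subtype.val h5

theorem cast_ne {p a b : ℕ} (h : a < b) (hb : b < p) : ((a : ℕ) : ZMod p) ≠ ((b : ℕ) : ZMod p) := by
  intro e
  have h4 := (ZMod.natCast_eq_natCast_iff' _ _ _).1 e
  rw [Nat.mod_eq_of_lt (h.trans hb), Nat.mod_eq_of_lt hb] at h4
  omega

/-- LEAF B (colour blow-up): finite skeleton with states -/
theorem leafB (ε : ℝ) (hε : ε < 1) {X Y : Type} [DecidableEq X] [DecidableEq Y]
    (SY : Finset Y) (SI : Finset X) (d0 d1 d2 d3 : Y → X)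
    (g0 g1 g2 : X → ℕ) (h0 h1 h2 h3 : Y → ℕ)
    (hne : SY.Nonempty)
    (hlt : ∀ y ∈ SY, h0 y < h1 y ∧ h1 y < h2 y ∧ h2 y < h3 y)
    (e3 : ∀ y ∈ SY, g0 (d3 y) = h0 y ∧ g1 (d3 y) = h1 y ∧ g2 (d3 y) = h2 y)
    (e2 : ∀ y ∈ SY, g0 (d2 y) = h0 y ∧ g1 (d2 y) = h1 y ∧ g2 (d2 y) = h3 y)
    (e1 : ∀ y ∈ SY, g0 (d1 y) = h0 y ∧ g1 (d1 y) = h2 y ∧ g2 (d1 y) = h3 y)
    (e0 : ∀ y ∈ SY, g0 (d0 y) = h1 y ∧ g1 (d0 y) = h2 y ∧ g2 (d0 y) = h3 y)
    (f3 : ∀ x ∈ SI, ∃ y ∈ SY, d3 y = x)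
    (f2 : ∀ x ∈ SI, ∃ y ∈ SY, d2 y = x)
    (f1 : ∀ x ∈ SI, ∃ y ∈ SY, d1 y = x)
    (f0 : ∀ x ∈ SI, ∃ y ∈ SY, d0 y = x)
    (hbig : (1 - ε) * (SY.card : ℝ) ≤ (SI.card : ℝ)) :
    ∃ (VV : Finset (ℕ × ℕ × ℕ × ℕ)) (II : Finset (ℕ × ℕ × ℕ)),
      VV.Nonempty ∧
      (∀ v ∈ VV, v.1 < v.2.1 ∧ v.2.1 < v.2.2.1 ∧ v.2.2.1 < v.2.2.2) ∧
      (∀ t ∈ II, ∃ d, (t.1, t.2.1, t.2.2, d) ∈ VV) ∧
      (∀ t ∈ II, ∃ d, (t.1, t.2.1, d, t.2.2) ∈ VV) ∧
      (∀ t ∈ II, ∃ d, (t.1, d, t.2.1, t.2.2) ∈ VV) ∧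
      (∀ t ∈ II, ∃ d, (d, t.1, t.2.1, t.2.2) ∈ VV) ∧
      (1 - ε) * (VV.card : ℝ) ≤ (II.card : ℝ) := by
  classical
  obtain ⟨p, hpge, hpp⟩ := Nat.exists_infinite_primes (SI.card + SY.sup h3 + 1)
  have : Fact p.Prime := ⟨hpp⟩
  have hp3 : ∀ y ∈ SY, h3 y < p := fun y hy => by
    have := Finset.le_sup (f := h3) hy
    omega
  obtain ⟨χ, hχ⟩ := exists_colour SI p (by omega)
  -- the set of good tuples
  set good : Y × (ZMod p × ZMod p × ZMod p) × (ZMod p × ZMod p × ZMod p) ×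
      (ZMod p × ZMod p × ZMod p) × (ZMod p × ZMod p × ZMod p) → Prop := fun w =>
    colr ((h0 w.1 : ℕ) : ZMod p) (h1 w.1 : ℕ) (h2 w.1 : ℕ) w.2.1 w.2.2.1 w.2.2.2.1 = χ (d3 w.1) ∧
    colr ((h0 w.1 : ℕ) : ZMod p) (h1 w.1 : ℕ) (h3 w.1 : ℕ) w.2.1 w.2.2.1 w.2.2.2.2 = χ (d2 w.1) ∧
    colr ((h0 w.1 : ℕ) : ZMod p) (h2 w.1 : ℕ) (h3 w.1 : ℕ) w.2.1 w.2.2.2.1 w.2.2.2.2 = χ (d1 w.1) ∧
    colr ((h1 w.1 : ℕ) : ZMod p) (h2 w.1 : ℕ) (h3 w.1 : ℕ) w.2.2.1 w.2.2.2.1 w.2.2.2.2 = χ (d0 w.1)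
    with hgood
  set VH : Finset (Y × (ZMod p × ZMod p × ZMod p) × (ZMod p × ZMod p × ZMod p) ×
      (ZMod p × ZMod p × ZMod p) × (ZMod p × ZMod p × ZMod p)) :=
    (SY ×ˢ Finset.univ).filter good with hVH
  set VV : Finset (ℕ × ℕ × ℕ × ℕ) := VH.image fun w =>
    (pnt (h0 w.1) w.2.1, pnt (h1 w.1) w.2.2.1, pnt (h2 w.1) w.2.2.2.1, pnt (h3 w.1) w.2.2.2.2)
    with hVV
  set vec : X → (ZMod p × ZMod p) → (ZMod p × ZMod p × ZMod p) → (ZMod p × ZMod p × ZMod p) →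
      (ZMod p × ZMod p × ZMod p) := fun x u b c =>
    (χ x - (((g1 x : ℕ) : ZMod p) + (g2 x : ℕ)) * u.1 - ((g1 x : ℕ) : ZMod p) * (g2 x : ℕ) * u.2 -
      LL ((g0 x : ℕ) : ZMod p) (g2 x : ℕ) b - LL ((g0 x : ℕ) : ZMod p) (g1 x : ℕ) c, u.1, u.2)
    with hvec
  have hcolr : ∀ x u b c, colr ((g0 x : ℕ) : ZMod p) (g1 x : ℕ) (g2 x : ℕ) (vec x u b c) b c = χ x := by
    intro x u b c
    simp only [hvec, colr, LL]
    ring
  set II : Finset (ℕ × ℕ × ℕ) := (SI ×ˢ (Finset.univ : Finset ((ZMod p × ZMod p) ×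
      (ZMod p × ZMod p × ZMod p) × (ZMod p × ZMod p × ZMod p)))).image fun w =>
    (pnt (g0 w.1) (vec w.1 w.2.1 w.2.2.1 w.2.2.2), pnt (g1 w.1) w.2.2.1, pnt (g2 w.1) w.2.2.2)
    with hII
  have hmem : ∀ y ∈ SY, ∀ a0 a1 a2 a3 : ZMod p × ZMod p × ZMod p, good (y, a0, a1, a2, a3) →
      (pnt (h0 y) a0, pnt (h1 y) a1, pnt (h2 y) a2, pnt (h3 y) a3) ∈ VV := by
    intro y hy a0 a1 a2 a3 hg
    rw [hVV, Finset.mem_image]
    refine ⟨(y, a0, a1, a2, a3), ?_, rfl⟩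
    rw [hVH, Finset.mem_filter, Finset.mem_product]
    exact ⟨⟨hy, Finset.mem_univ _⟩, hg⟩
  have hdist : ∀ y ∈ SY, ((h0 y : ℕ) : ZMod p) ≠ (h1 y : ℕ) ∧ ((h0 y : ℕ) : ZMod p) ≠ (h2 y : ℕ) ∧
      ((h0 y : ℕ) : ZMod p) ≠ (h3 y : ℕ) ∧ ((h1 y : ℕ) : ZMod p) ≠ (h2 y : ℕ) ∧
      ((h1 y : ℕ) : ZMod p) ≠ (h3 y : ℕ) ∧ ((h2 y : ℕ) : ZMod p) ≠ (h3 y : ℕ) := by
    intro y hy
    have h4 := hp3 y hy
    obtain ⟨k1, k2, k3⟩ := hlt y hy
    exact ⟨cast_ne k1 (by omega), cast_ne (by omega) (by omega), cast_ne (by omega) h4,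
      cast_ne k2 (by omega), cast_ne (by omega) h4, cast_ne k3 h4⟩
  refine ⟨VV, II, ?_, ?_, ?_, ?_, ?_, ?_, ?_⟩
  · -- nonempty
    obtain ⟨y, hy⟩ := hne
    obtain ⟨n1, n2, n3, n4, n5, n6⟩ := hdist y hy
    obtain ⟨a3, s1, s2, s3⟩ := LL_solve n1 n2 n4
      (χ (d2 y) - LL ((h1 y : ℕ) : ZMod p) (h3 y : ℕ) (χ (d3 y), 0, 0))
      (χ (d1 y) - LL ((h2 y : ℕ) : ZMod p) (h3 y : ℕ) (χ (d3 y), 0, 0))
      (χ (d0 y))
    refine ⟨_, hmem y hy (χ (d3 y), 0, 0) 0 0 a3 ⟨?_, ?_, ?_, ?_⟩⟩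
    · simp [colr, LL]
    · simp only [colr]
      rw [s1]
      simp [LL]
    · simp only [colr]
      rw [s2]
      simp [LL]
    · simp only [colr]
      rw [s3]
      simp [LL]
  · -- order
    intro v hv
    rw [hVV, Finset.mem_image] at hv
    obtain ⟨w, hw, rfl⟩ := hv
    rw [hVH, Finset.mem_filter, Finset.mem_product] at hw
    obtain ⟨k1, k2, k3⟩ := hlt _ hw.1.1
    exact ⟨pnt_lt k1 _ _, pnt_lt k2 _ _, pnt_lt k3 _ _⟩
  · -- face 3
    intro t ht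
    rw [hII, Finset.mem_image] at ht
    obtain ⟨⟨x, u, b, c⟩, hw, rfl⟩ := ht
    rw [Finset.mem_product] at hw
    obtain ⟨y, hy, hyx⟩ := f3 x hw.1
    have hc := hcolr x u b c
    subst hyx
    obtain ⟨q0, q1, q2⟩ := e3 y hy
    set a := vec (d3 y) u b c
    rw [q0, q1, q2] at hc
    obtain ⟨n1, n2, n3, n4, n5, n6⟩ := hdist y hy
    obtain ⟨a3, s1, s2, s3⟩ := LL_solve n1 n2 n4
      (χ (d2 y) - LL ((h1 y : ℕ) : ZMod p) (h3 y : ℕ) a - LL ((h0 y : ℕ) : ZMod p) (h3 y : ℕ) b)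
      (χ (d1 y) - LL ((h2 y : ℕ) : ZMod p) (h3 y : ℕ) a - LL ((h0 y : ℕ) : ZMod p) (h3 y : ℕ) c)
      (χ (d0 y) - LL ((h2 y : ℕ) : ZMod p) (h3 y : ℕ) b - LL ((h1 y : ℕ) : ZMod p) (h3 y : ℕ) c)
    refine ⟨pnt (h3 y) a3, ?_⟩
    simp only [q0, q1, q2]
    refine hmem y hy a b c a3 ⟨hc, ?_, ?_, ?_⟩
    · simp only [colr]
      rw [s1]
      ring
    · simp only [colr]
      rw [s2]
      ring
    · simp only [colr]
      rw [s3]
      ring
  · -- face 2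
    intro t ht
    rw [hII, Finset.mem_image] at ht
    obtain ⟨⟨x, u, b, c⟩, hw, rfl⟩ := ht
    rw [Finset.mem_product] at hw
    obtain ⟨y, hy, hyx⟩ := f2 x hw.1
    have hc := hcolr x u b c
    subst hyx
    obtain ⟨q0, q1, q2⟩ := e2 y hy
    set a := vec (d2 y) u b c
    rw [q0, q1, q2] at hc
    obtain ⟨n1, n2, n3, n4, n5, n6⟩ := hdist y hy
    obtain ⟨a2, s1, s2, s3⟩ := LL_solve n1 n3 n5
      (χ (d3 y) - LL ((h1 y : ℕ) : ZMod p) (h2 y : ℕ) a - LL ((h0 y : ℕ) : ZMod p) (h2 y : ℕ) b)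
      (χ (d1 y) - LL ((h2 y : ℕ) : ZMod p) (h3 y : ℕ) a - LL ((h0 y : ℕ) : ZMod p) (h2 y : ℕ) c)
      (χ (d0 y) - LL ((h2 y : ℕ) : ZMod p) (h3 y : ℕ) b - LL ((h1 y : ℕ) : ZMod p) (h2 y : ℕ) c)
    refine ⟨pnt (h2 y) a2, ?_⟩
    simp only [q0, q1, q2]
    refine hmem y hy a b a2 c ⟨?_, hc, ?_, ?_⟩
    · simp only [colr]
      rw [s1]
      ring
    · simp only [colr]
      rw [s2]
      ring
    · simp only [colr]
      rw [s3]
      ring
  · -- face 1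
    intro t ht
    rw [hII, Finset.mem_image] at ht
    obtain ⟨⟨x, u, b, c⟩, hw, rfl⟩ := ht
    rw [Finset.mem_product] at hw
    obtain ⟨y, hy, hyx⟩ := f1 x hw.1
    have hc := hcolr x u b c
    subst hyx
    obtain ⟨q0, q1, q2⟩ := e1 y hy
    set a := vec (d1 y) u b c
    rw [q0, q1, q2] at hc
    obtain ⟨n1, n2, n3, n4, n5, n6⟩ := hdist y hy
    obtain ⟨a1, s1, s2, s3⟩ := LL_solve n2 n3 n6
      (χ (d3 y) - LL ((h1 y : ℕ) : ZMod p) (h2 y : ℕ) a - LL ((h0 y : ℕ) : ZMod p) (h1 y : ℕ) b)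
      (χ (d2 y) - LL ((h1 y : ℕ) : ZMod p) (h3 y : ℕ) a - LL ((h0 y : ℕ) : ZMod p) (h1 y : ℕ) c)
      (χ (d0 y) - LL ((h1 y : ℕ) : ZMod p) (h3 y : ℕ) b - LL ((h1 y : ℕ) : ZMod p) (h2 y : ℕ) c)
    refine ⟨pnt (h1 y) a1, ?_⟩
    simp only [q0, q1, q2]
    refine hmem y hy a a1 b c ⟨?_, ?_, hc, ?_⟩
    · simp only [colr]
      rw [s1]
      ring
    · simp only [colr]
      rw [s2]
      ring
    · simp only [colr]
      rw [s3]
      ring
  · -- face 0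
    intro t ht
    rw [hII, Finset.mem_image] at ht
    obtain ⟨⟨x, u, b, c⟩, hw, rfl⟩ := ht
    rw [Finset.mem_product] at hw
    obtain ⟨y, hy, hyx⟩ := f0 x hw.1
    have hc := hcolr x u b c
    subst hyx
    obtain ⟨q0, q1, q2⟩ := e0 y hy
    set a := vec (d0 y) u b c
    rw [q0, q1, q2] at hc
    obtain ⟨n1, n2, n3, n4, n5, n6⟩ := hdist y hy
    obtain ⟨a0, s1, s2, s3⟩ := LL_solve n4 n5 n6
      (χ (d3 y) - LL ((h0 y : ℕ) : ZMod p) (h2 y : ℕ) a - LL ((h0 y : ℕ) : ZMod p) (h1 y : ℕ) b)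
      (χ (d2 y) - LL ((h0 y : ℕ) : ZMod p) (h3 y : ℕ) a - LL ((h0 y : ℕ) : ZMod p) (h1 y : ℕ) c)
      (χ (d1 y) - LL ((h0 y : ℕ) : ZMod p) (h3 y : ℕ) b - LL ((h0 y : ℕ) : ZMod p) (h2 y : ℕ) c)
    refine ⟨pnt (h0 y) a0, ?_⟩
    simp only [q0, q1, q2]
    refine hmem y hy a0 a b c ⟨?_, ?_, ?_, hc⟩
    · simp only [colr]
      rw [s1]
      ring
    · simp only [colr]
      rw [s2]
      ring
    · simp only [colr]
      rw [s3]
      ring
  · -- counting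
    have hcF : Fintype.card (ZMod p) = p := ZMod.card p
    have c1 : VV.card ≤ SY.card * (p * p * (p * (p * p) * (p * (p * p)))) := by
      refine Finset.card_image_le.trans ?_
      have hinj : Set.InjOn (fun w : Y × (ZMod p × ZMod p × ZMod p) × (ZMod p × ZMod p × ZMod p) ×
          (ZMod p × ZMod p × ZMod p) × (ZMod p × ZMod p × ZMod p) =>
          ((w.1, w.2.1.2, w.2.2.1, w.2.2.2.1) : Y × (ZMod p × ZMod p) × (ZMod p × ZMod p × ZMod p) ×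
            (ZMod p × ZMod p × ZMod p))) (VH : Set _) := by
        rintro ⟨y, a0, a1, a2, a3⟩ hw ⟨y', b0, b1, b2, b3⟩ hw' e
        rw [Finset.mem_coe, hVH, Finset.mem_filter, Finset.mem_product] at hw hw'
        simp only [Prod.mk.injEq] at e
        obtain ⟨rfl, e2', rfl, rfl⟩ := e
        obtain ⟨⟨hy, -⟩, g3, g2', g1', g0'⟩ := hw
        obtain ⟨-, g3', g2'', g1'', g0''⟩ := hw'
        simp only at hy g3 g2' g1' g0' g3' g2'' g1'' g0''
        obtain ⟨n1, n2, n3, n4, n5, n6⟩ := hdist y hy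
        have ha : a0 = b0 := by
          obtain ⟨x1, x2⟩ := a0
          obtain ⟨z1, z2⟩ := b0
          simp only at e2'
          subst e2'
          have : x1 = z1 := by
            have k := g3.trans g3'.symm
            simp only [colr, LL] at k
            linear_combination k
          rw [this]
        subst ha
        have hb : a3 = b3 := by
          refine LL_unique n1 n2 n4 ?_ ?_ ?_
          · have k := g2'.trans g2''.symm
            simp only [colr] at k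
            linear_combination k
          · have k := g1'.trans g1''.symm
            simp only [colr] at k
            linear_combination k
          · have k := g0'.trans g0''.symm
            simp only [colr] at k
            linear_combination k
        subst hb
        rfl
      have h5 := Finset.card_le_card_of_injOn (s := VH) (t := SY ×ˢ (Finset.univ :
        Finset ((ZMod p × ZMod p) × (ZMod p × ZMod p × ZMod p) × (ZMod p × ZMod p × ZMod p)))) _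
        (by
          intro w hw
          rw [Finset.mem_coe, hVH, Finset.mem_filter, Finset.mem_product] at hw
          rw [Finset.mem_coe, Finset.mem_product]
          exact ⟨hw.1.1, Finset.mem_univ _⟩) hinj
      refine h5.trans (le_of_eq ?_)
      rw [Finset.card_product, Finset.card_univ]
      simp only [Fintype.card_prod, hcF]
    have c2 : II.card = SI.card * (p * p * (p * (p * p) * (p * (p * p)))) := by
      rw [hII, Finset.card_image_of_injOn, Finset.card_product, Finset.card_univ]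
      · simp only [Fintype.card_prod, hcF]
      · rintro ⟨x, u, b, c⟩ hw ⟨x', u', b', c'⟩ hw' e
        rw [Finset.mem_coe, Finset.mem_product] at hw hw'
        simp only [Prod.mk.injEq] at e
        obtain ⟨i1, i2, i3⟩ := e
        obtain ⟨j1, k1⟩ := pnt_inj i1
        obtain ⟨j2, k2⟩ := pnt_inj i2
        obtain ⟨j3, k3⟩ := pnt_inj i3
        have hc := hcolr x u b c
        have hc' := hcolr x' u' b' c'
        rw [k1, k2, k3, j1, j2, j3, hc'] at hc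
        have hxx := hχ x' hw'.1 x hw.1 hc
        have hu : u = u' := by
          have k4 := congrArg Prod.snd k1
          simp only [hvec] at k4
          exact Prod.ext (congrArg Prod.fst k4) (congrArg Prod.snd k4)
        rw [hxx, hu, k2, k3]
    have hP : (0 : ℝ) ≤ ((p * p * (p * (p * p) * (p * (p * p))) : ℕ) : ℝ) := Nat.cast_nonneg _
    have h1e : 0 ≤ 1 - ε := by linarith
    have c3 : (VV.card : ℝ) ≤ (SY.card : ℝ) * ((p * p * (p * (p * p) * (p * (p * p))) : ℕ) : ℝ) := by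
      exact_mod_cast c1
    have c4 : (II.card : ℝ) = (SI.card : ℝ) * ((p * p * (p * (p * p) * (p * (p * p))) : ℕ) : ℝ) := by
      exact_mod_cast c2
    rw [c4]
    calc (1 - ε) * (VV.card : ℝ) ≤
        (1 - ε) * ((SY.card : ℝ) * ((p * p * (p * (p * p) * (p * (p * p))) : ℕ) : ℝ)) :=
          mul_le_mul_of_nonneg_left c3 h1e
      _ = ((1 - ε) * (SY.card : ℝ)) * ((p * p * (p * (p * p) * (p * (p * p))) : ℕ) : ℝ) := by ring
      _ ≤ _ := mul_le_mul_of_nonneg_right hbig hP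

end Pool.Agent.Helper54.TF
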